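import Mathlib
import Pool.Agent.MP_2b113a_an.H83.Inv

/-!
Gaussian measures and bump functions in three dimensions.
-/

namespace Pool.Agent.MP_2b113a_an.C3

open MeasureTheory ProbabilityTheory Filter Topology
open scoped ENNReal NNReal Real

export Pool.Agent.MP_2b113a_an.H83 (weak_cluster weak_cluster_fun int_mul memLp_of_bdd
  integrable_of_bdd abs_toReal_le integral_toReal_mul lintegral_mul_ne_top lintegral_conv1
  gaussianPDFReal_le lintegral_sq_gauss N2 G2 pdf2)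

/-- The space of times. -/
abbrev T3 : Type := ℝ × ℝ × ℝ

instance : Measure.IsAddHaarMeasure (volume : Measure T3) :=
  inferInstanceAs (Measure.IsAddHaarMeasure
    ((volume : Measure ℝ).prod (volume : Measure (ℝ × ℝ))))

/-- The squared Euclidean norm. -/
def nsq (u : T3) : ℝ := u.1 ^ 2 + u.2.1 ^ 2 + u.2.2 ^ 2

lemma nsq_nonneg (u : T3) : 0 ≤ nsq u := by unfold nsq; positivity

@[fun_prop] lemma continuous_nsq : Continuous nsq := by unfold nsq; fun_prop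

@[fun_prop] lemma measurable_nsq : Measurable nsq := continuous_nsq.measurable

@[simp] lemma nsq_neg (u : T3) : nsq (-u) = nsq u := by simp [nsq]

lemma nsq_sub_comm (u v : T3) : nsq (u - v) = nsq (v - u) := by
  simp only [nsq, Prod.fst_sub, Prod.snd_sub]; ring

lemma nsq_add_le (u v : T3) : nsq (u + v) ≤ 2 * nsq u + 2 * nsq v := by
  simp only [nsq, Prod.fst_add, Prod.snd_add]
  nlinarith [sq_nonneg (u.1 - v.1), sq_nonneg (u.2.1 - v.2.1), sq_nonneg (u.2.2 - v.2.2)]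

lemma nsq_eq_zero {u : T3} : nsq u = 0 ↔ u = 0 := by
  refine ⟨fun h => ?_, fun h => by simp [h, nsq]⟩
  unfold nsq at h
  have h1 : u.1 = 0 := by nlinarith [sq_nonneg u.1, sq_nonneg u.2.1, sq_nonneg u.2.2]
  have h2 : u.2.1 = 0 := by nlinarith [sq_nonneg u.1, sq_nonneg u.2.1, sq_nonneg u.2.2]
  have h3 : u.2.2 = 0 := by nlinarith [sq_nonneg u.1, sq_nonneg u.2.1, sq_nonneg u.2.2]
  exact Prod.ext h1 (Prod.ext h2 h3)

/-- The unnormalised round Gaussian bump. -/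
noncomputable def bmp (s : ℝ) (u : T3) : ℝ≥0∞ := ENNReal.ofReal (Real.exp (-nsq u / (2 * s)))

@[fun_prop] lemma measurable_bmp (s : ℝ) : Measurable (bmp s) := by unfold bmp; fun_prop

lemma bmp_ne_zero (s : ℝ) (u : T3) : bmp s u ≠ 0 := by
  simp [bmp, Real.exp_pos]

lemma bmp_ne_top (s : ℝ) (u : T3) : bmp s u ≠ ∞ := ENNReal.ofReal_ne_top

lemma bmp_le_one {s : ℝ} (hs : 0 < s) (u : T3) : bmp s u ≤ 1 := by
  rw [bmp, ENNReal.ofReal_le_one, Real.exp_le_one_iff]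
  exact div_nonpos_of_nonpos_of_nonneg (by linarith [nsq_nonneg u]) (by positivity)

@[simp] lemma bmp_neg (s : ℝ) (u : T3) : bmp s (-u) = bmp s u := by simp [bmp]

lemma bmp_le_of {s s' : ℝ} {u u' : T3} (h : nsq u' / (2 * s') ≤ nsq u / (2 * s)) :
    bmp s u ≤ bmp s' u' := by
  refine ENNReal.ofReal_le_ofReal (Real.exp_le_exp.2 ?_)
  rw [neg_div, neg_div]; linarith

lemma bmp_mono {s s' : ℝ} (hs : 0 < s) (h : s ≤ s') (u : T3) : bmp s u ≤ bmp s' u :=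
  bmp_le_of (div_le_div_of_nonneg_left (nsq_nonneg u) (by positivity) (by linarith))

/-- The total mass of the bump. -/
noncomputable def zz (s : ℝ) : ℝ := √(2 * π * s) * (2 * π * s)

lemma zz_pos {s : ℝ} (hs : 0 < s) : 0 < zz s := by unfold zz; positivity

lemma zz_mul {c : ℝ} (hc : 0 ≤ c) (s : ℝ) : zz (c * s) = √c * c * zz s := by
  rw [zz, zz, show 2 * π * (c * s) = c * (2 * π * s) by ring, Real.sqrt_mul hc]; ring

lemma zz_mul_le {c d s : ℝ} (hc : 0 ≤ c) (hd : 0 ≤ d) (h : c ≤ d ^ 2) (hs : 0 < s) :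
    zz (c * s) ≤ d * c * zz s := by
  rw [zz_mul hc]
  have := zz_pos hs
  have : √c ≤ d := Real.sqrt_le_iff.2 ⟨hd, h⟩
  gcongr

lemma zz_mono {s s' : ℝ} (hs : 0 < s) (h : s ≤ s') : zz s ≤ zz s' := by
  unfold zz
  gcongr

/-- The Gaussian measure with mean `m` and variances `a`, `b`, `c`. -/
noncomputable def G3 (m : T3) (a b c : ℝ≥0) : Measure T3 :=
  (gaussianReal m.1 a).prod (G2 m.2 b c)

/-- The centred Gaussian measure with variances `a`, `b`, `c`. -/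
noncomputable def N3 (a b c : ℝ≥0) : Measure T3 := (gaussianReal 0 a).prod (N2 b c)

instance (m : T3) (a b c : ℝ≥0) : IsProbabilityMeasure (G3 m a b c) := by
  unfold G3; infer_instance

instance (a b c : ℝ≥0) : IsProbabilityMeasure (N3 a b c) := by
  unfold N3; infer_instance

lemma N3_eq_G3 (a b c : ℝ≥0) : N3 a b c = G3 0 a b c := rfl

/-- The density of `G3`. -/
noncomputable def pdf3 (m : T3) (a b c : ℝ≥0) (u : T3) : ℝ≥0∞ :=
  gaussianPDF m.1 a u.1 * pdf2 m.2 b c u.2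

@[fun_prop] lemma measurable_pdf3 (m : T3) (a b c : ℝ≥0) : Measurable (pdf3 m a b c) := by
  unfold pdf3; fun_prop

lemma pdf3_ne_top (m : T3) (a b c : ℝ≥0) (u : T3) : pdf3 m a b c u ≠ ∞ :=
  ENNReal.mul_ne_top gaussianPDF_ne_top (H83.pdf2_ne_top _ _ _ _)

lemma pdf3_ne_zero (m : T3) {a b c : ℝ≥0} (ha : a ≠ 0) (hb : b ≠ 0) (hc : c ≠ 0) (u : T3) :
    pdf3 m a b c u ≠ 0 :=
  mul_ne_zero (gaussianPDF_pos _ ha _).ne' (H83.pdf2_ne_zero _ hb hc _)

lemma G3_eq (m : T3) {a b c : ℝ≥0} (ha : a ≠ 0) (hb : b ≠ 0) (hc : c ≠ 0) :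
    G3 m a b c = volume.withDensity (pdf3 m a b c) := by
  rw [G3, gaussianReal_of_var_ne_zero _ ha, H83.G2_eq _ hb hc,
    prod_withDensity (by fun_prop) (by fun_prop)]
  rfl

lemma lintegral_G3 (m : T3) {a b c : ℝ≥0} (ha : a ≠ 0) (hb : b ≠ 0) (hc : c ≠ 0) {f : T3 → ℝ≥0∞}
    (hf : Measurable f) : ∫⁻ u, f u ∂G3 m a b c = ∫⁻ u, pdf3 m a b c u * f u := by
  rw [G3_eq m ha hb hc, lintegral_withDensity_eq_lintegral_mul _ (by fun_prop) hf]
  rfl

lemma lintegral_N3 {a b c : ℝ≥0} (ha : a ≠ 0) (hb : b ≠ 0) (hc : c ≠ 0) {f : T3 → ℝ≥0∞}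
    (hf : Measurable f) : ∫⁻ u, f u ∂N3 a b c = ∫⁻ u, pdf3 0 a b c u * f u :=
  lintegral_G3 0 ha hb hc hf

lemma pdf3_iso (m : T3) {s : ℝ≥0} (hs : s ≠ 0) (u : T3) :
    pdf3 m s s s u = ENNReal.ofReal ((zz s)⁻¹) * bmp s (u - m) := by
  have hs' : (0 : ℝ) < s := by positivity
  have := zz_pos hs'
  rw [pdf3, H83.pdf2_iso _ hs, gaussianPDF, H83.bmp, bmp, ← ENNReal.ofReal_mul (by positivity),
    ← ENNReal.ofReal_mul (gaussianPDFReal_nonneg _ _ _), ← ENNReal.ofReal_mul (by positivity)]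
  congr 1
  simp only [gaussianPDFReal, nsq, H83.nsq, Prod.fst_sub, Prod.snd_sub, zz]
  rw [mul_mul_mul_comm, ← mul_inv, ← Real.exp_add]
  congr 2
  ring

lemma lintegral_N3_iso {s : ℝ≥0} (hs : s ≠ 0) {f : T3 → ℝ≥0∞} (hf : Measurable f) :
    ∫⁻ u, f u ∂N3 s s s = ENNReal.ofReal ((zz s)⁻¹) * ∫⁻ u, f u * bmp s u := by
  rw [lintegral_N3 hs hs hs hf, ← lintegral_const_mul' _ _ ENNReal.ofReal_ne_top]
  refine lintegral_congr fun u => ?_
  rw [pdf3_iso 0 hs, sub_zero, mul_assoc, mul_comm (f u)]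

lemma lintegral_mul_bmp {s : ℝ≥0} (hs : s ≠ 0) {f : T3 → ℝ≥0∞} (hf : Measurable f) :
    ∫⁻ u, f u * bmp s u = ENNReal.ofReal (zz s) * ∫⁻ u, f u ∂N3 s s s := by
  have hs' : (0 : ℝ) < s := by positivity
  have := zz_pos hs'
  rw [lintegral_N3_iso hs hf, ← mul_assoc, ← ENNReal.ofReal_mul (by positivity),
    mul_inv_cancel₀ (by positivity), ENNReal.ofReal_one, one_mul]

lemma lintegral_bmp {s : ℝ} (hs : 0 < s) : ∫⁻ u, bmp s u = ENNReal.ofReal (zz s) := by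
  lift s to ℝ≥0 using hs.le
  have h := lintegral_mul_bmp (s := s) (f := fun _ => 1)
    (by exact_mod_cast hs.ne') measurable_const
  simpa using h

lemma lintegral_conv3 (m : T3) (a b c a' b' c' : ℝ≥0) {f : T3 → ℝ≥0∞} (hf : Measurable f) :
    ∫⁻ z, ∫⁻ ζ, f (z + ζ) ∂N3 a' b' c' ∂G3 m a b c =
      ∫⁻ u, f u ∂G3 m (a + a') (b + b') (c + c') := by
  have h1 : ∀ z : T3, ∫⁻ ζ, f (z + ζ) ∂N3 a' b' c' =
      ∫⁻ x, ∫⁻ y, f (z.1 + x, z.2 + y) ∂N2 b' c' ∂gaussianReal 0 a' := fun z => by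
    rw [N3, lintegral_prod _ (by fun_prop)]; rfl
  simp_rw [h1]
  rw [G3, G3, lintegral_prod _ (by fun_prop), lintegral_prod _ (by fun_prop),
    ← lintegral_conv1 (by fun_prop)]
  refine lintegral_congr fun z1 => ?_
  rw [lintegral_lintegral_swap (by fun_prop)]
  refine lintegral_congr fun x => ?_
  exact H83.lintegral_conv2 m.2 b c b' c' (f := fun y => f (z1 + x, y)) (by fun_prop)

lemma lintegral_convN (a b c a' b' c' : ℝ≥0) {f : T3 → ℝ≥0∞} (hf : Measurable f) :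
    ∫⁻ z, ∫⁻ ζ, f (z + ζ) ∂N3 a' b' c' ∂N3 a b c = ∫⁻ u, f u ∂N3 (a + a') (b + b') (c + c') :=
  lintegral_conv3 0 a b c a' b' c' hf

lemma N3_map_scale (a b c : ℝ≥0) (x y z : ℝ) :
    (N3 a b c).map (fun u => (x * u.1, y * u.2.1, z * u.2.2)) =
      N3 (.mk (x ^ 2) (sq_nonneg _) * a) (.mk (y ^ 2) (sq_nonneg _) * b)
        (.mk (z ^ 2) (sq_nonneg _) * c) := by
  have h1 := gaussianReal_map_const_mul (μ := 0) (v := a) x
  rw [mul_zero] at h1
  rw [N3, N3, ← h1, ← H83.N2_map_scale, Measure.map_prod_map _ _ (by fun_prop) (by fun_prop)]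
  rfl

lemma N3_map_neg (a b c : ℝ≥0) : (N3 a b c).map (fun u => -u) = N3 a b c := by
  have h := N3_map_scale a b c (-1) (-1) (-1)
  have h1 : NNReal.mk ((-1 : ℝ) ^ 2) (sq_nonneg _) = 1 := by ext; simp
  rw [h1, one_mul, one_mul, one_mul] at h
  conv_rhs => rw [← h]
  congr 1
  ext u <;> simp

lemma lintegral_N3_neg (a b c : ℝ≥0) {f : T3 → ℝ≥0∞} (hf : Measurable f) :
    ∫⁻ u, f (-u) ∂N3 a b c = ∫⁻ u, f u ∂N3 a b c := by
  rw [← lintegral_map hf measurable_neg, N3_map_neg]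

lemma N2_zero : N2 0 0 = Measure.dirac 0 := by
  simp only [H83.N2, gaussianReal_zero_var, Measure.dirac_prod_dirac]
  rfl

lemma lintegral_N3_left (a : ℝ≥0) {f : T3 → ℝ≥0∞} (hf : Measurable f) :
    ∫⁻ u, f u ∂N3 a 0 0 = ∫⁻ x, f (x, 0) ∂gaussianReal 0 a := by
  rw [N3, lintegral_prod _ (by fun_prop), N2_zero]
  simp

lemma lintegral_N3_right (b c : ℝ≥0) {f : T3 → ℝ≥0∞} (hf : Measurable f) :
    ∫⁻ u, f u ∂N3 0 b c = ∫⁻ y, f (0, y) ∂N2 b c := by
  rw [N3, lintegral_prod _ (by fun_prop)]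
  simp

/-! ### Linear changes of coordinates -/

@[fun_prop] lemma continuous_lin (A : T3 ≃ₗ[ℝ] T3) : Continuous A :=
  A.toLinearMap.continuous_of_finiteDimensional

@[fun_prop] lemma measurable_lin (A : T3 ≃ₗ[ℝ] T3) : Measurable A := (continuous_lin A).measurable

lemma map_lin (A : T3 ≃ₗ[ℝ] T3) : ∃ c : ℝ≥0∞, c ≠ 0 ∧ c ≠ ∞ ∧
    (volume : Measure T3).map A = c • volume := by
  have hd : LinearMap.det (A : T3 →ₗ[ℝ] T3) ≠ 0 := A.isUnit_det'.ne_zero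
  refine ⟨_, ?_, ENNReal.ofReal_ne_top,
    Measure.map_linearMap_addHaar_eq_smul_addHaar (volume : Measure T3) hd⟩
  simpa using hd

/-- Orthogonal maps. -/
def Orth (R : T3 ≃ₗ[ℝ] T3) : Prop := ∀ u, nsq (R u) = nsq u

lemma Orth.symm {R : T3 ≃ₗ[ℝ] T3} (h : Orth R) : Orth R.symm := fun u => by
  rw [← h, R.apply_symm_apply]

lemma Orth.trans {R R' : T3 ≃ₗ[ℝ] T3} (h : Orth R) (h' : Orth R') : Orth (R.trans R') :=
  fun u => by rw [LinearEquiv.trans_apply, h', h]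

lemma orth_refl : Orth (LinearEquiv.refl ℝ T3) := fun _ => rfl

lemma Orth.bmp {R : T3 ≃ₗ[ℝ] T3} (h : Orth R) (t : ℝ) (q : T3) : bmp t (R q) = bmp t q := by
  rw [C3.bmp, h, C3.bmp]

lemma Orth.mp {R : T3 ≃ₗ[ℝ] T3} (h : Orth R) : MeasurePreserving R := by
  obtain ⟨c, -, -, e⟩ := map_lin R
  have h1 := lintegral_map (μ := (volume : Measure T3)) (measurable_bmp 1) (measurable_lin R)
  simp only [h.bmp] at h1
  rw [e, lintegral_smul_measure, lintegral_bmp one_pos, smul_eq_mul] at h1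
  have h0 : ENNReal.ofReal (zz 1) ≠ 0 := by simpa using zz_pos one_pos
  have : c = 1 := (ENNReal.mul_left_inj h0 ENNReal.ofReal_ne_top).1 (by rw [h1, one_mul])
  exact ⟨measurable_lin R, by rw [e, this, one_smul]⟩

lemma mp_diag {x : ℝ} (hx : x ≠ 0) :
    MeasurePreserving (fun q : T3 => (x * q.1, q.2.1, x⁻¹ * q.2.2)) := by
  have m1 : ∀ {y : ℝ}, y ≠ 0 → (volume : Measure ℝ).map (y * ·) =
      ENNReal.ofReal |y⁻¹| • volume := fun hy => Real.map_volume_mul_left hy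
  refine ⟨by fun_prop, ?_⟩
  have : (fun q : T3 => (x * q.1, q.2.1, x⁻¹ * q.2.2)) =
      Prod.map (x * ·) (Prod.map id (x⁻¹ * ·)) := rfl
  rw [this, Measure.volume_eq_prod, ← Measure.map_prod_map _ _ (by fun_prop) (by fun_prop),
    Measure.volume_eq_prod, ← Measure.map_prod_map _ _ (by fun_prop) (by fun_prop), m1 hx,
    m1 (inv_ne_zero hx), Measure.map_id, Measure.prod_smul_right, Measure.prod_smul_left,
    Measure.prod_smul_right, smul_smul, ← ENNReal.ofReal_mul (abs_nonneg _), ← abs_mul, inv_inv,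
    inv_mul_cancel₀ hx]
  simp

lemma Orth.lintegral_N3 {R : T3 ≃ₗ[ℝ] T3} (h : Orth R) (t : ℝ≥0) {f : T3 → ℝ≥0∞}
    (hf : Measurable f) : ∫⁻ u, f (R u) ∂N3 t t t = ∫⁻ u, f u ∂N3 t t t := by
  by_cases ht : t = 0
  · subst ht
    rw [lintegral_N3_left _ (by fun_prop), lintegral_N3_left _ hf]
    simp only [gaussianReal_zero_var, lintegral_dirac]
    rw [show ((0, 0) : T3) = 0 from rfl, map_zero]
  rw [lintegral_N3_iso ht (by fun_prop), lintegral_N3_iso ht hf]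
  congr 1
  rw [← h.mp.lintegral_comp (f := fun u => f u * C3.bmp t u) (by fun_prop)]
  simp [h.bmp]

lemma Orth.N3_map {R : T3 ≃ₗ[ℝ] T3} (h : Orth R) (t : ℝ≥0) : (N3 t t t).map R = N3 t t t := by
  refine Measure.ext_of_lintegral _ fun f hf => ?_
  rw [lintegral_map hf (by fun_prop), h.lintegral_N3 t hf]

lemma Orth.lintegral_G3 {R : T3 ≃ₗ[ℝ] T3} (h : Orth R) (m : T3) {t : ℝ≥0} (ht : t ≠ 0)
    {f : T3 → ℝ≥0∞} (hf : Measurable f) :
    ∫⁻ u, f (R u) ∂G3 m t t t = ∫⁻ u, f u ∂G3 (R m) t t t := by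
  rw [C3.lintegral_G3 _ ht ht ht (by fun_prop), C3.lintegral_G3 _ ht ht ht hf,
    ← h.mp.lintegral_comp (f := fun u => pdf3 (R m) t t t u * f u) (by fun_prop)]
  simp only [pdf3_iso _ ht, ← map_sub, h.bmp]

lemma pdf3_le (m : T3) {a b c v : ℝ≥0} {r : ℝ} (ha : a ≠ 0) (hb : b ≠ 0) (hc : c ≠ 0)
    (hav : a ≤ v) (hbv : b ≤ v) (hcv : c ≤ v) (hra : (v : ℝ) ≤ r * a) (hrb : (v : ℝ) ≤ r * b)
    (hrc : (v : ℝ) ≤ r * c) (u : T3) :
    pdf3 m a b c u ≤ ENNReal.ofReal (r ^ 2) * pdf3 m v v v u := by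
  have ha0 : (0 : ℝ) < a := by positivity
  have hav' : (a : ℝ) ≤ v := hav
  have hr : 1 ≤ r := le_of_mul_le_mul_right (by linarith) ha0
  have h1 : gaussianPDF m.1 a u.1 ≤ ENNReal.ofReal r * gaussianPDF m.1 v u.1 := by
    rw [gaussianPDF, gaussianPDF, ← ENNReal.ofReal_mul (by linarith)]
    refine ENNReal.ofReal_le_ofReal ((gaussianPDFReal_le ha hav u.1).trans ?_)
    refine mul_le_mul_of_nonneg_right ?_ (gaussianPDFReal_nonneg _ _ _)
    refine Real.sqrt_le_iff.2 ⟨by linarith, ((div_le_iff₀ ha0).2 hra).trans ?_⟩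
    nlinarith
  rw [pdf3, pdf3, sq, ENNReal.ofReal_mul (by linarith), mul_mul_mul_comm]
  exact mul_le_mul' h1 (H83.pdf2_le _ hb hc hbv hcv hrb hrc _)

lemma lintegral_G3_le (m : T3) {a b c v : ℝ≥0} {r : ℝ} (ha : a ≠ 0) (hb : b ≠ 0) (hc : c ≠ 0)
    (hav : a ≤ v) (hbv : b ≤ v) (hcv : c ≤ v) (hra : (v : ℝ) ≤ r * a) (hrb : (v : ℝ) ≤ r * b)
    (hrc : (v : ℝ) ≤ r * c) {f : T3 → ℝ≥0∞} (hf : Measurable f) :
    ∫⁻ u, f u ∂G3 m a b c ≤ ENNReal.ofReal (r ^ 2) * ∫⁻ u, f u ∂G3 m v v v := by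
  have hv : v ≠ 0 := fun h => ha (le_antisymm (h ▸ hav) zero_le)
  rw [lintegral_G3 m ha hb hc hf, lintegral_G3 m hv hv hv hf,
    ← lintegral_const_mul' _ _ ENNReal.ofReal_ne_top]
  refine lintegral_mono fun u => ?_
  rw [← mul_assoc]
  exact mul_le_mul_left (pdf3_le m ha hb hc hav hbv hcv hra hrb hrc u) _

lemma lintegral_nsq_G3 (m : T3) (a b c : ℝ≥0) :
    ∫⁻ u, ENNReal.ofReal (nsq (u - m)) ∂G3 m a b c = a + b + c := by
  have : ∀ u : T3, ENNReal.ofReal (nsq (u - m)) =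
      ENNReal.ofReal ((u.1 - m.1) ^ 2) + ENNReal.ofReal (H83.nsq (u.2 - m.2)) := fun u => by
    rw [← ENNReal.ofReal_add (sq_nonneg _) (H83.nsq_nonneg _)]
    simp only [nsq, H83.nsq, Prod.fst_sub, Prod.snd_sub, add_assoc]
  simp_rw [this]
  rw [lintegral_add_left (by fun_prop), G3, lintegral_prod _ (by fun_prop),
    lintegral_prod _ (by fun_prop)]
  simp [lintegral_sq_gauss, H83.lintegral_nsq_G2, add_assoc]

lemma lintegral_nsq_N3 (a b c : ℝ≥0) :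
    ∫⁻ u, ENNReal.ofReal (nsq u) ∂N3 a b c = a + b + c := by
  simpa [N3_eq_G3] using lintegral_nsq_G3 0 a b c

/-- Shifting a wide bump changes it little. -/
lemma bmp_shift (q : T3) {ε : ℝ} (hε : 0 < ε) :
    ∃ s₀ : ℝ, 0 < s₀ ∧ ∀ s, s₀ ≤ s → ∀ v,
      bmp s (v + q) ≤ bmp s v + ENNReal.ofReal ε * bmp (2 * s) v := by
  set η : ℝ := min (ε / 8) (1 / 4) with hη
  have hη0 : 0 < η := lt_min (by positivity) (by norm_num)
  have hη1 : η ≤ ε / 8 := min_le_left _ _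
  have hη2 : η ≤ 1 / 4 := min_le_right _ _
  refine ⟨nsq q / η ^ 2 + 1, by have := nsq_nonneg q; positivity, fun s hs v => ?_⟩
  have hq := nsq_nonneg q
  have hv := nsq_nonneg v
  have hs0 : 0 < s := lt_of_lt_of_le (by positivity) hs
  simp only [bmp]
  rw [← ENNReal.ofReal_mul hε.le, ← ENNReal.ofReal_add (by positivity) (by positivity)]
  refine ENNReal.ofReal_le_ofReal ?_
  set A := nsq v / (4 * s) with hA
  have hA0 : 0 ≤ A := by positivity
  have e1 : -nsq v / (2 * s) = -2 * A := by rw [hA]; field_simp; ring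
  have e2 : -nsq v / (2 * (2 * s)) = -A := by rw [hA]; field_simp; ring
  have hqs : nsq q ≤ η ^ 2 * s := by
    have : nsq q / η ^ 2 ≤ s := by linarith
    rwa [div_le_iff₀ (by positivity), mul_comm] at this
  have e3 : -nsq (v + q) / (2 * s) ≤ -2 * A + (2 * η * A + η / 2) := by
    rw [hA, div_le_iff₀ (by positivity)]
    have h1 : (-2 * (nsq v / (4 * s)) + (2 * η * (nsq v / (4 * s)) + η / 2)) * (2 * s) =
        -nsq v + η * nsq v + η * s := by field_simp; ring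
    rw [h1]
    have h2 : η * (nsq v - nsq (v + q)) ≤ η * (η * nsq v + η * s) := by
      simp only [nsq, Prod.fst_add, Prod.snd_add] at hqs ⊢
      nlinarith [sq_nonneg (η * v.1 + q.1), sq_nonneg (η * v.2.1 + q.2.1),
        sq_nonneg (η * v.2.2 + q.2.2), sq_nonneg q.1, sq_nonneg q.2.1, sq_nonneg q.2.2]
    have := le_of_mul_le_mul_left h2 hη0
    linarith
  rw [e1, e2]
  refine (Real.exp_le_exp.2 e3).trans ?_
  have c1 : Real.exp (2 * η * A) ≤ 1 + 2 * η * Real.exp A := by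
    have := convexOn_exp.2 (Set.mem_univ 0) (Set.mem_univ A)
      (show 0 ≤ 1 - 2 * η by linarith) (show 0 ≤ 2 * η by linarith) (by ring)
    simp only [smul_eq_mul, mul_zero, zero_add, Real.exp_zero, mul_one] at this
    linarith
  have c2 : Real.exp (η / 2) ≤ 1 + η := by
    have := Real.exp_bound' (x := η / 2) (by positivity) (by linarith) (n := 1) one_pos
    simp at this
    linarith
  have c3 : Real.exp (-2 * A) * Real.exp A = Real.exp (-A) := by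
    rw [← Real.exp_add]; congr 1; ring
  have c4 : Real.exp (-2 * A) ≤ Real.exp (-A) := Real.exp_le_exp.2 (by linarith)
  have p1 := Real.exp_pos (-2 * A)
  have p2 := Real.exp_pos (-A)
  rw [Real.exp_add, Real.exp_add]
  calc Real.exp (-2 * A) * (Real.exp (2 * η * A) * Real.exp (η / 2))
      ≤ Real.exp (-2 * A) * ((1 + 2 * η * Real.exp A) * (1 + η)) := by gcongr
    _ = (Real.exp (-2 * A) + 2 * η * Real.exp (-A)) * (1 + η) := by rw [← c3]; ring
    _ ≤ _ := by nlinarith [mul_pos hη0 p2, mul_pos hη0 p1]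

end Pool.Agent.MP_2b113a_an.C3
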