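import Mathlib
import Pool.Agent.MP_2b113a_an.C3.Mass
import Pool.Agent.MP_2b113a_an.H83.Iface
import Pool.Agent.MP_2b113a_an.H33.Defs

/-!
Interfaces for the pieces of the core theorem in three dimensions.
-/

namespace Pool.Agent.MP_2b113a_an.C3

open MeasureTheory ProbabilityTheory Filter Topology
open scoped ENNReal NNReal Real

export Pool.Agent.MP_2b113a_an.H83 (kap)

/-! ### Frames in general position -/

/-- The scalar product. -/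
def dot (u v : T3) : ℝ := u.1 * v.1 + u.2.1 * v.2.1 + u.2.2 * v.2.2

lemma Orth.dot {R : T3 ≃ₗ[ℝ] T3} (h : Orth R) (u v : T3) : dot (R u) (R v) = dot u v := by
  have h1 := h (u + v)
  have h2 := h u
  have h3 := h v
  rw [map_add] at h1
  simp only [nsq, C3.dot, Prod.fst_add, Prod.snd_add] at *
  linarith

lemma Orth.symm_fst {R : T3 ≃ₗ[ℝ] T3} (h : Orth R) (u : T3) :
    (R.symm u).1 = C3.dot u (R (1, 0, 0)) := by
  have := h.dot (R.symm u) (1, 0, 0)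
  rw [R.apply_symm_apply] at this
  rw [this]
  simp [C3.dot]

/-- Two orthogonal frames whose first axes are not orthogonal to the first axis and span the
space together with it. -/
structure Gen (R₂ R₃ : T3 ≃ₗ[ℝ] T3) : Prop where
  o₂ : Orth R₂
  o₃ : Orth R₃
  c₂ : (R₂ (1, 0, 0)).1 ≠ 0
  c₃ : (R₃ (1, 0, 0)).1 ≠ 0
  det : (R₂ (1, 0, 0)).2.1 * (R₃ (1, 0, 0)).2.2 - (R₂ (1, 0, 0)).2.2 * (R₃ (1, 0, 0)).2.1 ≠ 0

/-- The weight that vanishes on the first axis and on its orthogonal plane. -/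
def wg (u : T3) : ℝ := u.1 ^ 2 * (u.2.1 ^ 2 + u.2.2 ^ 2)

lemma wg_nonneg (u : T3) : 0 ≤ wg u := by unfold wg; positivity

lemma wg_cases {R : T3 ≃ₗ[ℝ] T3} (h : Orth R) {u : T3} (h0 : wg (R.symm u) = 0) :
    dot u (R (1, 0, 0)) = 0 ∨ ∃ a : ℝ, u = a • R (1, 0, 0) := by
  rcases mul_eq_zero.1 h0 with h1 | h1
  · left
    rw [← h.symm_fst]
    exact pow_eq_zero_iff two_ne_zero |>.1 h1
  · right
    refine ⟨(R.symm u).1, ?_⟩
    rw [← map_smul, ← LinearEquiv.symm_apply_eq]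
    have h2 : (R.symm u).2.1 = 0 := by nlinarith [sq_nonneg (R.symm u).2.1, sq_nonneg (R.symm u).2.2]
    have h3 : (R.symm u).2.2 = 0 := by nlinarith [sq_nonneg (R.symm u).2.1, sq_nonneg (R.symm u).2.2]
    exact Prod.ext (by simp) (Prod.ext (by simp [h2]) (by simp [h3]))

lemma Gen.eq_zero {R₂ R₃ : T3 ≃ₗ[ℝ] T3} (h : Gen R₂ R₃) {u : T3}
    (h0 : wg u + wg (R₂.symm u) + wg (R₃.symm u) = 0) : u = 0 := by
  have a1 := wg_nonneg u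
  have a2 := wg_nonneg (R₂.symm u)
  have a3 := wg_nonneg (R₃.symm u)
  have b2 := wg_cases h.o₂ (u := u) (by linarith)
  have b3 := wg_cases h.o₃ (u := u) (by linarith)
  have c₂ := h.c₂
  have c₃ := h.c₃
  have hd := h.det
  generalize R₂ (1, 0, 0) = e at *
  generalize R₃ (1, 0, 0) = f at *
  obtain ⟨x, y, z⟩ := u
  by_cases hx : x = 0
  · subst hx
    have k : ∀ g : T3, g.1 ≠ 0 → (dot (0, y, z) g = 0 ∨ ∃ a : ℝ, ((0, y, z) : T3) = a • g) →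
        y * g.2.1 + z * g.2.2 = 0 := by
      rintro g hg (b | ⟨a, b⟩)
      · simpa [dot] using b
      · have h1 : 0 = a * g.1 := congrArg Prod.fst b
        have h2 : a = 0 := (mul_eq_zero.1 h1.symm).resolve_right hg
        rw [h2, zero_smul] at b
        have h3 : y = 0 := congrArg (fun v : T3 => v.2.1) b
        have h4 : z = 0 := congrArg (fun v : T3 => v.2.2) b
        simp [h3, h4]
    have k2 := k e c₂ b2
    have k3 := k f c₃ b3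
    have hy : y = 0 := by
      refine (mul_eq_zero.1 ?_).resolve_right hd
      linear_combination f.2.2 * k2 - e.2.2 * k3
    have hz : z = 0 := by
      refine (mul_eq_zero.1 ?_).resolve_right hd
      linear_combination e.2.1 * k3 - f.2.1 * k2
    simp [hy, hz]
  · exfalso
    have h1 : wg (x, y, z) = 0 := by linarith
    have h2 : y ^ 2 + z ^ 2 = 0 := (mul_eq_zero.1 h1).resolve_left (pow_ne_zero 2 hx)
    have hy : y = 0 := by nlinarith [sq_nonneg y, sq_nonneg z]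
    have hz : z = 0 := by nlinarith [sq_nonneg y, sq_nonneg z]
    subst hy hz
    rcases b2 with b | ⟨a, b⟩
    · simp [dot, hx, c₂] at b
    · have h3 : x = a * e.1 := congrArg Prod.fst b
      have h4 : 0 = a * e.2.1 := congrArg (fun v : T3 => v.2.1) b
      have h5 : 0 = a * e.2.2 := congrArg (fun v : T3 => v.2.2) b
      have ha : a ≠ 0 := fun h0 => hx (by simp [h3, h0])
      apply hd
      rw [(mul_eq_zero.1 h4.symm).resolve_left ha, (mul_eq_zero.1 h5.symm).resolve_left ha]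
      ring

lemma Gen.three_frames {R₂ R₃ : T3 ≃ₗ[ℝ] T3} (h : Gen R₂ R₃) : ∃ γ : ℝ, 0 < γ ∧
    ∀ u, γ * nsq u ^ 2 ≤ wg u + wg (R₂.symm u) + wg (R₃.symm u) := by
  set G : T3 → ℝ := fun u => wg u + wg (R₂.symm u) + wg (R₃.symm u) with hG
  have cw : Continuous wg := by unfold wg; fun_prop
  have hc : Continuous G := by rw [hG]; fun_prop
  have hK : IsCompact {u : T3 | nsq u = 1} := by
    refine Metric.isCompact_of_isClosed_isBounded (isClosed_eq continuous_nsq continuous_const)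
      ((Metric.isBounded_closedBall (x := (0 : T3)) (r := 1)).subset fun u hu => ?_)
    have hu' : u.1 ^ 2 + u.2.1 ^ 2 + u.2.2 ^ 2 = 1 := hu
    simp only [mem_closedBall_zero_iff, Prod.norm_def, Real.norm_eq_abs, max_le_iff,
      ← sq_le_one_iff_abs_le_one]
    refine ⟨?_, ?_, ?_⟩ <;> nlinarith [sq_nonneg u.1, sq_nonneg u.2.1, sq_nonneg u.2.2]
  obtain ⟨v, hv, hmin⟩ := hK.exists_isMinOn ⟨(1, 0, 0), by simp [nsq]⟩ hc.continuousOn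
  have G0 : ∀ u, 0 ≤ G u := fun u =>
    add_nonneg (add_nonneg (wg_nonneg _) (wg_nonneg _)) (wg_nonneg _)
  have hv0 : 0 < G v := lt_of_le_of_ne (G0 v) fun h0 => by
    have h1 : nsq v = 1 := hv
    rw [h.eq_zero h0.symm] at h1
    simp [nsq] at h1
  refine ⟨G v, hv0, fun u => ?_⟩
  by_cases hu : nsq u = 0
  · rw [hu]; simpa using G0 u
  have hp : 0 < nsq u := lt_of_le_of_ne (nsq_nonneg u) (Ne.symm hu)
  set t := √(nsq u) with ht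
  have ht0 : 0 < t := Real.sqrt_pos.2 hp
  have ht2 : t ^ 2 = nsq u := Real.sq_sqrt hp.le
  have hw : ∀ w : T3, wg (t⁻¹ • w) = (t⁻¹) ^ 4 * wg w := fun w => by
    simp only [wg, Prod.smul_fst, Prod.smul_snd, smul_eq_mul]; ring
  have h1 : G v ≤ G (t⁻¹ • u) := hmin (by
    show nsq (t⁻¹ • u) = 1
    have : nsq (t⁻¹ • u) = t⁻¹ ^ 2 * nsq u := by
      simp only [nsq, Prod.smul_fst, Prod.smul_snd, smul_eq_mul]; ring
    rw [this, ← ht2]; field_simp)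
  have h2 : G (t⁻¹ • u) = (t⁻¹) ^ 4 * G u := by
    simp only [hG, map_smul, hw]; ring
  rw [h2, inv_pow, ← div_eq_inv_mul, le_div_iff₀ (by positivity)] at h1
  rw [← ht2, ← pow_mul]
  exact h1

/-! ### Symmetries -/

variable {Ω : Type} [MeasurableSpace Ω] {M : Measure Ω}

/-- The inverse of the diagonal map. -/
noncomputable def dgi (l : ℝ) (k : ℕ) (q : T3) : T3 := ((l ^ k)⁻¹ * q.1, q.2.1, l ^ k * q.2.2)

@[fun_prop] lemma measurable_dgi (l : ℝ) (k : ℕ) : Measurable (dgi l k) := by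
  unfold dgi; fun_prop

lemma dgi_dg {l : ℝ} (hl : l ≠ 0) (k : ℕ) (q : T3) : dgi l k (dg l k q) = q := by
  have : l ^ k ≠ 0 := pow_ne_zero _ hl
  ext <;> simp [dgi, dg, this]

lemma Sym.nm_ρ {F : NSFlow Ω M} {l : ℝ} (hl : l ≠ 0) {k : ℕ} (Y : Sym F (dg l k))
    {β : T3 → ℝ≥0∞} (hβ : Measurable β) (ω : Ω) :
    F.nm Y.ρ β ω = Y.ρ ω * F.nm (fun _ => 1) (fun u => β (dgi l k u)) (Y.S ω) := by
  simp only [NSFlow.nm, Y.tl_ρ, NSFlow.tl_one]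
  rw [← (mp_diag (pow_ne_zero k hl)).lintegral_comp
    (f := fun u => F.W u (Y.S ω) * β (dgi l k u)) (by fun_prop),
    ← lintegral_const_mul' _ _ (Y.ρ_ne_top ω)]
  refine lintegral_congr fun u => ?_
  have := dgi_dg hl k u
  simp only [dg] at this ⊢
  rw [this]; ring

lemma Cond.bound {F : NSFlow Ω M} {l : ℝ} {H : Hyp F l} (c : Cond H) (L : ℝ≥0) (N : ℕ)
    {φ : Ω → ℝ≥0∞} (hφ : Measurable φ) :
    L * ∫⁻ ω, φ ω ∂M ≤ ∑ k ∈ Finset.range N, ∫⁻ ω, φ ω * c.s k ω ∂M +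
      L * ∫⁻ ω in {ω | ∑ k ∈ Finset.range N, c.s k ω < L}, φ ω ∂M := by
  have hZ : MeasurableSet {ω | ∑ k ∈ Finset.range N, c.s k ω < L} :=
    measurableSet_lt (Finset.measurable_sum _ fun k _ => c.meas k) measurable_const
  rw [← lintegral_finsetSum (f := fun k ω => φ ω * c.s k ω) _ fun k _ => hφ.mul (c.meas k),
    ← lintegral_indicator hZ,
    ← lintegral_const_mul _ hφ, ← lintegral_const_mul _ (hφ.indicator hZ),
    ← lintegral_add_right _ ((hφ.indicator hZ).const_mul _)]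
  refine lintegral_mono fun ω => ?_
  by_cases h : ∑ k ∈ Finset.range N, c.s k ω < L
  · rw [Set.indicator_of_mem (show ω ∈ {ω | ∑ k ∈ Finset.range N, c.s k ω < L} from h)]
    exact le_add_self
  · rw [← Finset.mul_sum, mul_comm]
    exact le_add_right (mul_le_mul_right (not_lt.1 h) _)

namespace NSFlow

variable (F : NSFlow Ω M)

lemma rep_nm {R : T3 ≃ₗ[ℝ] T3} (h : Orth R) {X : Ω → ℝ≥0∞} (hX : Measurable X)
    {β : T3 → ℝ≥0∞} (hβ : Measurable β) (ω : Ω) :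
    (F.rep R).nm X β ω = F.nm X (fun u => β (R.symm u)) ω := by
  rw [nm, nm, ← h.mp.lintegral_comp (f := fun u => F.tl X ω u * β (R.symm u)) (by fun_prop)]
  simp only [rep_tl, R.symm_apply_apply]

lemma rep_ms {R : T3 ≃ₗ[ℝ] T3} (h : Orth R) (t : ℝ) : (F.rep R).ms t = F.ms t := by
  ext ω
  rw [ms, ms, F.rep_nm h measurable_const (measurable_bmp _)]
  simp only [h.symm.bmp]

/-- The density of the Gaussian average of the base measure. -/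
noncomputable def hh (a b c : ℝ≥0) : Ω → ℝ≥0∞ := F.cv (fun _ => 1) (N3 a b c)

/-- The unnormalised total variation distance between the posterior law of the displacement and
the product of the laws of its first coordinate and of its last two coordinates. -/
noncomputable def dep (X : Ω → ℝ≥0∞) (a a' b b' c c' : ℝ≥0) (ω : Ω) : ℝ≥0∞ :=
  ∫⁻ u, F.tl (F.cv X (N3 a b c)) ω u -
    F.tl (F.cv X (N3 a b' c')) ω (u.1, 0) * F.tl (F.cv X (N3 a' b c)) ω (0, u.2) /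
      F.cv X (N3 a' b' c') ω ∂N3 (a' - a) (b' - b) (c' - c)

/-- The posterior laws are almost products, in the Cesaro sense. -/
def EntOut (κ : ℝ≥0) : Prop :=
  ∀ (K : ℕ) (ε : ℝ≥0∞), K ≠ 0 → ε ≠ 0 → ∀ᶠ n : ℕ in atTop, ∀ᶠ T₀ : ℕ in atTop,
    ∑ T ∈ Finset.range n, ∫⁻ ω, F.dep (fun _ => 1) (κ ^ (T₀ + T)) (κ ^ (T₀ + T + K))
      (κ ^ (T₀ + T)) (κ ^ (T₀ + T + K)) (κ ^ (T₀ + T)) (κ ^ (T₀ + T + K)) ω ∂M ≤ n * ε

/-- The orbit mass grows uniformly along the scales. -/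
def EmpOut (κ : ℝ≥0) : Prop :=
  ∀ ε : ℝ≥0∞, ε ≠ 0 → ∃ N : ℕ, ∀ᶠ i : ℕ in atTop,
    ∫⁻ ω, (F.ms ((κ : ℝ) ^ (i + N)) ω)⁻¹ * F.ms ((κ : ℝ) ^ i) ω ∂M ≤ ε

/-- At the scale `t` the Gaussian averages are insensitive to distortion. -/
def Win (κ : ℝ≥0) (N t : ℕ) (ε : ℝ≥0∞) : Prop :=
  ∀ k ≤ N, ∫⁻ ω, F.hh (κ ^ (t + k)) (κ ^ t) (κ ^ (t - k)) ω -
    F.hh (κ ^ t) (κ ^ t) (κ ^ t) ω ∂M ≤ ε

end NSFlow

def EntStmt : Prop :=
  ∀ (Ω : Type) [MeasurableSpace Ω] (M : Measure Ω) [IsProbabilityMeasure M] (F : NSFlow Ω M)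
    (l : ℝ), 2 ≤ l → Nonempty (Hyp F l) → F.EntOut (kap l)

def EmpStmt : Prop :=
  ∀ (Ω : Type) [MeasurableSpace Ω] (M : Measure Ω) [IsProbabilityMeasure M] (F : NSFlow Ω M)
    (l : ℝ) (R₂ R₃ : T3 ≃ₗ[ℝ] T3), 2 ≤ l → Gen R₂ R₃ → Nonempty (Hyp F l) →
    Nonempty (Hyp (F.rep R₂) l) → Nonempty (Hyp (F.rep R₃) l) →
    (∀ᵐ ω ∂M, ∫⁻ q, F.W q ω = ∞) → F.EmpOut (kap l)

/-- The first coordinate is `δ`-almost independent of the other two under `P`. -/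
def Dep (P : Measure T3) (δ : ℝ) : Prop :=
  ∀ (g₁ : ℝ → ℝ) (g₂ : ℝ × ℝ → ℝ), Measurable g₁ → Measurable g₂ → (∀ x, 0 ≤ g₁ x ∧ g₁ x ≤ 1) →
    (∀ x, 0 ≤ g₂ x ∧ g₂ x ≤ 1) →
    |∫ u, g₁ u.1 * g₂ u.2 ∂P - (∫ u, g₁ u.1 ∂P) * ∫ u, g₂ u.2 ∂P| ≤ δ

/-- Stable form of Bernstein's theorem in three frames. -/
def RigidStmt : Prop :=
  ∀ (R₂ R₃ : T3 ≃ₗ[ℝ] T3), Gen R₂ R₃ → ∀ (M₀ s₀ : ℝ≥0), s₀ ≠ 0 → s₀ ≤ 1 →
    ∀ η : ℝ≥0, η ≠ 0 → ∃ δ : ℝ, 0 < δ ∧ ∀ (σ : ℝ≥0), σ ≠ 0 →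
      ∀ (P : Measure T3) [IsProbabilityMeasure P],
        ∫⁻ u, ENNReal.ofReal (nsq u) ∂P ≤ (M₀ * σ : ℝ≥0) →
        Dep P δ → Dep (P.map R₂.symm) δ → Dep (P.map R₃.symm) δ →
        ∃ (m : T3) (v : ℝ≥0), v ≠ 0 ∧ nsq m ≤ (2 * M₀ + 4) * σ ∧
          ∀ φ : T3 → ℝ≥0∞, Measurable φ → (∀ u, φ u ≤ 1) →
            ∫⁻ z, ∫⁻ ζ, φ (z + ζ) ∂(N3 (σ * s₀) (σ * s₀) (σ * s₀)) ∂P ≤
              ∫⁻ u, φ u ∂G3 m v v v + η

def WinStmt : Prop :=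
  ∀ (Ω : Type) [MeasurableSpace Ω] (M : Measure Ω) [IsProbabilityMeasure M] (F : NSFlow Ω M)
    (κ : ℝ≥0) (R₂ R₃ : T3 ≃ₗ[ℝ] T3), 4 ≤ κ → Gen R₂ R₃ →
    F.EntOut κ → (F.rep R₂).EntOut κ → (F.rep R₃).EntOut κ → F.EmpOut κ →
    ∀ (N : ℕ) (ε : ℝ≥0∞), ε ≠ 0 →
      ∃ᶠ t : ℕ in atTop, F.Win κ N t ε ∧ (F.rep R₂).Win κ N t ε ∧ (F.rep R₃).Win κ N t ε

/-- Bounded measurable positive definite functions. -/
def PD (f : T3 → ℝ) : Prop :=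
  Measurable f ∧ (∃ B : ℝ, ∀ q, |f q| ≤ B) ∧
    ∀ g : T3 → ℝ, Measurable g → Integrable g → 0 ≤ ∫ p, ∫ q, g p * g q * f (p - q)

/-- Gaussian averages. -/
noncomputable def Gi (f : T3 → ℝ) (a b c : ℝ≥0) : ℝ := ∫ q, f q ∂N3 a b c

/-- Mixed differences of Gaussian averages. -/
noncomputable def Dk (κ : ℝ≥0) (f : T3 → ℝ) (i m j : ℕ) : ℝ :=
  Gi f (κ ^ i) (κ ^ m) (κ ^ j) - Gi f (κ ^ (i + 1)) (κ ^ m) (κ ^ j) -
    Gi f (κ ^ i) (κ ^ (m + 1)) (κ ^ (j + 1)) + Gi f (κ ^ (i + 1)) (κ ^ (m + 1)) (κ ^ (j + 1))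

def PDStmt : Prop :=
  ∀ κ : ℝ≥0, 2 ≤ κ →
    (∀ f, PD f → ∀ i m j, 0 ≤ Dk κ f i m j) ∧
    (∀ f, PD f → ∀ J : Finset (ℕ × ℕ), (∀ x ∈ J, x.2 ≤ x.1) →
      ∑ x ∈ J, Dk κ f (x.1 + x.2) x.1 (x.1 - x.2) ≤ Gi f 1 1 1) ∧
    ∀ R₂ R₃ : T3 ≃ₗ[ℝ] T3, Gen R₂ R₃ → ∃ c₁ : ℝ, 0 < c₁ ∧ ∀ f, PD f →
      ∀ (N : ℕ) (v : ℝ≥0), v ≠ 0 → ∃ m₁ : ℕ,
        c₁ * (Gi f (κ ^ N) (κ ^ N) (κ ^ N) - Real.exp (1 / 2) * Gi f v v v) ≤
          ∑ m ∈ Finset.range m₁, (Dk κ f (N + m) (N + m) (N + m) +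
            Dk κ (fun q => f (R₂ q)) (N + m) (N + m) (N + m) +
            Dk κ (fun q => f (R₃ q)) (N + m) (N + m) (N + m))

def SpecStmt : Prop :=
  ∀ (Ω : Type) [MeasurableSpace Ω] (M : Measure Ω) [IsProbabilityMeasure M] (F : NSFlow Ω M)
    (l : ℝ) (R₂ R₃ : T3 ≃ₗ[ℝ] T3), 2 ≤ l → Gen R₂ R₃ → Nonempty (Hyp F l) →
    Nonempty (Hyp (F.rep R₂) l) → Nonempty (Hyp (F.rep R₃) l) →
    (∀ (N : ℕ) (ε : ℝ≥0∞), ε ≠ 0 → ∃ᶠ t : ℕ in atTop, F.Win (kap l) N t ε ∧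
      (F.rep R₂).Win (kap l) N t ε ∧ (F.rep R₃).Win (kap l) N t ε) →
    ∃ ν : Measure Ω, IsFiniteMeasure ν ∧ ν ≪ M ∧ M ≪ ν ∧ ∀ q, ν.map (F.τ q) = ν

/-- The core theorem on flows of three-space. -/
def CoreStmt : Prop :=
  ∀ (Ω : Type) [MeasurableSpace Ω] (M : Measure Ω) [IsProbabilityMeasure M] (F : NSFlow Ω M)
    (l : ℝ) (R₂ R₃ : T3 ≃ₗ[ℝ] T3), 2 ≤ l → Gen R₂ R₃ → Nonempty (Hyp F l) →
    Nonempty (Hyp (F.rep R₂) l) → Nonempty (Hyp (F.rep R₃) l) →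
    (∀ᵐ ω ∂M, ∫⁻ q, F.W q ω = ∞) →
    ∃ ν : Measure Ω, IsFiniteMeasure ν ∧ ν ≪ M ∧ M ≪ ν ∧ ∀ q, ν.map (F.τ q) = ν

/-- Three hyperbolic elements of the symmetric square representation are diagonal in frames in
general position. -/
def FrameStmt : Prop :=
  ∀ m : ℤ, 1 ≤ m → ∃ (l : ℝ) (A R₂ R₃ : T3 ≃ₗ[ℝ] T3), 2 ≤ l ∧ Gen R₂ R₃ ∧
    (∀ q, H33.U3 m (H33.L3 m (A q)) = A (dg l 1 q)) ∧
    (∀ q, H33.U3 (-m) (H33.L3 (-m) (A (R₂ q))) = A (R₂ (dg l 1 q))) ∧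
    ∀ q, H33.L3 m (H33.U3 m (A (R₃ q))) = A (R₃ (dg l 1 q))

theorem core_of (hE : EntStmt) (hP : EmpStmt) (hW : WinStmt) (hS : SpecStmt) : CoreStmt := by
  intro Ω _ M _ F l R₂ R₃ hl hG K₁ K₂ K₃ hI
  have hκ : 4 ≤ kap l := by
    rw [← NNReal.coe_le_coe]
    show (4 : ℝ) ≤ l ^ 2
    nlinarith
  exact hS Ω M F l R₂ R₃ hl hG K₁ K₂ K₃ (hW Ω M F _ R₂ R₃ hκ hG (hE Ω M _ l hl K₁)
    (hE Ω M _ l hl K₂) (hE Ω M _ l hl K₃) (hP Ω M F l R₂ R₃ hl hG K₁ K₂ K₃ hI))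

end Pool.Agent.MP_2b113a_an.C3
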